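import Mathlib
import Pool.Agent.Helper43.Gm.E
import Pool.Agent.Helper43.Ah.Good

/-!
Exact filling of long rows by points of bounded multiplicity: definitions.
-/

set_option autoImplicit false

namespace Pool.Agent.Helper43.Gx

open Finset Pool.Agent.Lead.Sh
open Pool.Agent.Helper43.Gm (st mv nn SS Run Pri)

/-- number of points started up to the row `y` -/
def aa (κ x : ℕ → ℕ) (y : ℕ) : ℕ := κ y + (if 0 < x y then 1 else 0)

/-- the averaging operator (a weighted sum of second differences) -/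
def Hop (φ : ℕ → ℤ) (w : ℕ) : ℤ :=
  2 * ∑ t ∈ range w, φ t - w * (w + 1) * φ (w - 1) + w * (w - 1) * φ w

/-- what the points started before the row `J` give to the row `J + μ - 1 - t` -/
def FF (κ x ν : ℕ → ℕ) (μ J t : ℕ) : ℤ :=
  ∑ c ∈ range (Gm.PkE.KK κ x J),
    (nn (Gm.PkE.ek κ x J) (Gm.PkE.ex x J) ν c (J + μ - 1 - t) : ℤ)

/-- good steps between consecutive rows -/
def Step (M R : ℕ) (ℓ : ℕ → ℕ) : Prop :=
  (∀ y, y + 1 < R → ℓ y ≤ ℓ (y + 1) + 1) ∧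
  ∀ y, y + 1 < R → ℓ y < ℓ (y + 1) ∨ (ℓ y ≤ ℓ (y + 1) ∧ M ≤ ℓ y) ∨ 2 * M + 1 ≤ ℓ y

/-- the last rows are long and not too convex -/
def Zone (M S R : ℕ) (ℓ : ℕ → ℕ) : Prop :=
  (∀ y < R, R ≤ y + (2 * M + 1) → (25 + S) * M ^ 2 ≤ ℓ y) ∧
  ∀ y, R ≤ y + (M + 1) → y + 2 < R → ℓ y + ℓ (y + 2) ≤ 2 * ℓ (y + 1) + S

end Pool.Agent.Helper43.Gx
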