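import Mathlib
import Pool.Agent.Helper43.Gx.Defs
import Pool.Agent.Helper18.CuspMain

/-!
Statements of the packets (MP_d3128a_ag, exact filling, no window). The proofs may use everything in
Helper43/Gm (D.lean: `od`, `SS_eq`, `od_succ`, `choice`, `extend`, `fill`, `mono_le`, `x_zero`; E.lean: `ek`, `ex`,
`KK`, `run_ext`, `nn_ext`, `lt_KK`, `sum_eq_SS`, `old_drop`, `le_of_sum`, `run_restrict`; C.lean; Helper53/Gm/B.lean).
-/

set_option autoImplicit false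

namespace Pool.Agent.Helper43.Gx

open Finset Pool.Agent.Lead.Sh
open Pool.Agent.Helper43.Gm (st mv nn SS Run Pri)
open Pool.Agent.Helper43.Gm.PkE (KK ek ex)
open Pool.Agent.Helper43.Ah (pat Good)
open Helper18.Cusp (Concl Red kap rr)

/-- X1 (exact greedy). As `Gm.PkD.game` with `Bd = ∅` and `SS = ℓ` on all rows. The only new case of
`Gm.PkD.choice` (take `l0 = SS y`) is the step `l0 < l1`: if `0 < x y` then `need = l1 - A ≥ l0 + 1 - B + o ≥ x y + 1`;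
if `x y = 0` then `A ≤ B - o ≤ l0 ≤ l1`, so `need = l1 - A ≥ 0` and `fill` from `κ y` (`need = 0` gives `K = κ y`, `X = 0`). -/
def GoalX1 : Prop := ∀ (M R : ℕ) (ν ℓ : ℕ → ℕ), 1 ≤ M → (∀ c, 1 ≤ ν c) → (∀ c, ν c ≤ M) →
  Step M R ℓ → ∃ κ x : ℕ → ℕ, Run M R ν κ x ∧ ∀ y < R, SS κ x ν y = ℓ y

/-- X2 (number of points started in a row). With `B = ∑_{c < κ y} nn c y`, `SS y = B + x y`, `o` = number of
`c < κ y` with `nn c y > 0` (`Gm.PkD.drop`): `B ≤ M o`, and `SS (y+1) ≤ (B - o) + M + M * (aa (y+1) - aa y)` (the old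
points, the moving point which gives at most `M`, the new points `aa y ≤ c < aa (y+1)`, each at most
`M`; the others give `0`). Multiply by `M`: `SS y ≤ M² (aa (y+1) - aa y) + M² + 2 M`. -/
def GoalX2 : Prop := ∀ (M R : ℕ) (ν κ x : ℕ → ℕ), Run M R ν κ x → ∀ y, y + 1 < R →
  SS κ x ν y ≤ SS κ x ν (y + 1) + 1 → aa κ x y ≤ aa κ x (y + 1) ∧
    SS κ x ν y ≤ M ^ 2 * (aa κ x (y + 1) - aa κ x y) + 3 * M ^ 2

/-- X3a (one point seen from the row `J`). `c` is a started point, `s0` its first active row. Let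
`st0` be the first row with `c < ek κ x J st0` (`st0 ≤ J`), the moving rows of `c` are `s0, …, st0 - 1`
(none if `st0 = s0`), `x` strictly increasing on them, so `x y ≥ y - s0 + 1`. In the row
`z = J + ν c - 1 - t ≥ st0`: `nn = ν c - (z - st0) - #{y : ν c + y < x y + z} = (t + 1 + st0 - J) - #{y : x y + J ≥ t + y + 2}`
(truncated), and `#moving = st0 - s0`, so it is `(t - (J - 1 - s0)) + #{y moving : x y + J < t + y + 2}`; the set is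
empty for `t ≤ J - 1 - s0` because `x y + J ≥ (y - s0 + 1) + J`, and there `nn = 0`; for `t > J - 1 - s0` nothing
is truncated. (For `t < ν c` the row `z` is `≥ J ≥ st0`; for `t = ν c` it is `J - 1` and `c < κ (J-1)` says
`st0 ≤ J - 1`.) Last part: the moving rows. -/
def GoalX3a : Prop := ∀ (M J : ℕ) (ν κ x : ℕ → ℕ), Run M J ν κ x → 1 ≤ J → ∀ c s0 : ℕ, s0 < J →
  c < aa κ x s0 → (∀ y < s0, aa κ x y ≤ c) →
  (∀ t, (t < ν c ∨ (t = ν c ∧ c < κ (J - 1))) →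
    nn (ek κ x J) (ex x J) ν c (J + ν c - 1 - t) = (t - (J - 1 - s0)) +
      ((range J).filter (fun y => κ y = c ∧ 0 < x y ∧ x y + J < t + y + 2)).card) ∧
  ∀ y < J, κ y = c → 0 < x y → s0 ≤ y ∧ y + 1 ≤ x y + s0

/-- X3 (second differences of the old part). `Hop` is linear. For `φ t = max (t - τ) 0` it is `τ (τ+1)`
if `τ < w` and `0` otherwise; for `φ t = [t' < t]` it is `-2 (t'+1)` if `t' + 2 ≤ w`, `≥ 0` otherwise. By X3a the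
point `c` gives `φ` with `τ = J - 1 - s0` plus one step for every moving row `y` of `c`, with
`t' + 2 = x y + J - y`, so steps with negative contribution have `y ≥ J - w + 1` (at most `w - 1` rows in
total, one moving point per row), each `≥ -2 (w-1)`. The points with `ν c ≠ μ` are `< P ≤ κ (J-M-1)`, they give `0`
from the row `J-1` on. The point moving at `J - 1` (at most one): at `t = μ` (only in `Hop _ μ`) the true
value is `x (J-1) ≥ 1`, at most `μ` less than the formula (`≤ μ + 1`): loss `≤ μ² (μ-1)`. The number of points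
with `s0 = J - 1 - t` is `aa (J-1-t) - aa (J-2-t) ≥ C` for `1 ≤ t ≤ μ - 1`. Hence
`Hop FF w ≥ C ∑_{t<w} t (t+1) - 2 (w-1)² - [w = μ] μ² (μ-1)`, `3 ∑_{t<w} t (t+1) = (w-1) w (w+1)`,
`6 (w-1)² ≤ (w-1) w (w+1)`, `3 μ² (μ-1) ≤ 3 (μ-1) μ (μ+1)`. -/
def GoalX3 : Prop := ∀ (M μ J P C : ℕ) (ν κ x : ℕ → ℕ), Run M J ν κ x → 1 ≤ μ → μ ≤ M →
  (∀ c, P ≤ c → ν c = μ) → M + μ + 2 ≤ J → P ≤ κ (J - M - 1) → 4 ≤ C →
  (∀ y, J ≤ y + μ + 1 → y + 1 < J → aa κ x y + C ≤ aa κ x (y + 1)) →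
  (∀ w, 2 ≤ w → w ≤ μ →
    ((C : ℤ) - 4) * ((w - 1) * w * (w + 1)) ≤ 3 * Hop (FF κ x ν μ J) w) ∧
  FF κ x ν μ J 0 = 0

/-- X4 (landing). `μ = 1`: all points of type `(0, 0)`. `μ ≥ 2`: let `G w = ∑_{t<w} g t - n w (w+1) / 2`, so `G μ = 0`.
Construct `z v` (`1 ≤ v < μ`) downwards: `E w = ∑_{v>w} ∑_{q=1,2} max (a_q v - (v - w)) 0` with `a_1 v = z v / 2`,
`a_2 v = z v - z v / 2`, and `G w - E w = w T w + z w`, `0 ≤ z w < w`; `T μ = 0`. So `a_q v ≤ v / 2`, and with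
`H w = E w + z w` (`H μ = 0`): `w T w = G w - H w` for `1 ≤ w ≤ μ`. Let `X_0 = n - T (μ-1)`,
`X_j = 2 T (μ-j) - T (μ-j+1) - T (μ-j-1)` for `1 ≤ j ≤ μ-2`, `X_{μ-1} = T 1 - T 2`. Claim `X_j ≥ 2` for `j ≤ μ-2`, `X_{μ-1} ≥ 0`.
(1) `w (w²-1) X_j = (- Hop g w) - [2 (w²-1) H w - w (w-1) H (w+1) - w (w+1) H (w-1)]`, `w = μ-j`, and the bracket is
`(w²-1) (2 H w - H (w+1) - H (w-1)) + (w-1) H (w+1) - (w+1) H (w-1) ≤ (w²-1)(z w + 2) + (w-1) (H (w+1) - H (w-1))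
≤ (w²-1)(w+1) + (w-1) 4 (w+1) = (w²-1)(w+5) ≤ 4 w (w²-1)` for `w ≥ 2`; here for `v > w` the terms are convex in
`w`, for `v = w` they are `z w` at `w`, at least `z w - 2` at `w-1`; and `H (w+1) - H (w-1) ≤ 2 * 2 (w+1)` because
only `w+1 ≤ v ≤ 2w+1` contribute at `w+1` (`a_q v ≤ v/2`), each at most `2`. Use `- Hop g w ≥ 6 w (w²-1)`.
(2) `(μ-1) X_0 ≥ (μ-1) n - G (μ-1) = g (μ-1) - n` and `μ (μ+1) (g (μ-1) - n) = - Hop g μ ≥ 6 (μ-1) μ (μ+1)`.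
(3) `H 1 = 0`, so `2 X_{μ-1} ≥ 2 G 1 - G 2 = g 0 - g 1 + n ≥ 0`.
Types: for `j ≤ μ-2` the two specials `(j, a_1 (μ-1-j))`, `(j, a_2 (μ-1-j))` and `X_j - 2` times `(j, 0)`; `X_{μ-1}` times
`(μ-1, 0)`. Total number: `∑ X_j = n` (telescoping). Row sums: compare the cumulated sums over the last
`w` rows: the type `(j, a)` gives `w (w+1)/2 + w min(j, μ-w) + (if j < μ-w then max (w - (μ-1-j) + a) 0 else 0)`, and
`∑_j X_j min(j, μ-w) = T w`. -/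
def GoalX4 : Prop := ∀ (μ n : ℕ) (g : ℕ → ℤ), 1 ≤ μ → g μ = 0 →
  2 * ∑ t ∈ range μ, g t = n * μ * (μ + 1) →
  (∀ w : ℕ, 2 ≤ w → w ≤ μ → 6 * (((w : ℤ) - 1) * w * (w + 1)) ≤ - Hop g w) →
  (2 ≤ μ → g 1 ≤ g 0 + n) →
  ∃ i z : ℕ → ℕ, (∀ c < n, i c + z c < μ) ∧
    ∀ k < μ, ∑ c ∈ range n, (pat μ μ (i c) (z c) k : ℤ) = g (μ - 1 - k)

/-- X5 (prices of a run with a linear end). The proof of `Gm.PkB.goalB` (file Helper53/Gm/B.lean) gives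
`π = pr M ν κ x u`, `ε c = 2 (4M+4) u c`; take `s = Ds` at any row `≥ J`: there `κ = K`, `x = 0`, so
`Ds = (4M+4) (2 (4M+4) u K) = s`; before `J` either `κ y = K`, `x y = 0`, `Ds = s`, or `κ y < K` and
`Ds ≥ u (κ y) > (R+1) GG u K ≥ s`. -/
def GoalX5 : Prop := ∀ (M R J K : ℕ) (ν κ x : ℕ → ℕ), Run M R ν κ x → J < R →
  (∀ y, J ≤ y → y < R → κ y = K ∧ x y = 0) → (∀ y < J, κ y ≤ K ∧ (κ y = K → x y = 0)) →
  ∃ (π ε : ℕ → ℤ) (s : ℤ), (∀ N, Pri R ν (nn κ x ν) π ε N) ∧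
    (∀ y, J ≤ y → y < R → π y = π J + s * (y - J)) ∧ ∀ y < J, π y + s * (J - y) ≤ π J

/-- X6 (glue). Second half first: `Pri μ (fun _ => μ) (fun c k => pat μ μ (i c) (z c) k) π2 ε2 n` with
`π2 = Ah.Pi' μ`, `ε2 c = Ah.sl μ (i c) (z c)` is `Ah.exU` (`R = ν = μ`, `z ≤ μ`). Glue: `π y = Λ π1 y + (if y < J then -L
else π2 (y - J))`, `ε c = Λ ε1 c` for `c < K`, `Λ s + ε2 (c-K)` for `c ≥ K`, with `L` large compared with all
`π2, ε2 * R`, and `Λ` large compared with `L`. For `c < K` the strict integer inequalities of `Pri` survive.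
For `c ≥ K`, `y = J + j`: the value is `Λ (π1 J - s J) + π2 j - ε2 (J + j)` at the rows `≥ J` (use `U2` shifted), and at
`y' < J` it is smaller by at least `L + (π2 j - ε2 (J + j - y')) > 0`. -/
def GoalX6 : Prop := ∀ (R J μ K n : ℕ) (ν i z : ℕ → ℕ) (n1 : ℕ → ℕ → ℕ) (π1 ε1 : ℕ → ℤ) (s : ℤ),
  1 ≤ μ → J + μ = R → Pri R ν n1 π1 ε1 K →
  (∀ y, J ≤ y → y < R → π1 y = π1 J + s * (y - J)) → (∀ y < J, π1 y + s * (J - y) ≤ π1 J) →
  (∀ c < n, ν (K + c) = μ) → (∀ c < n, i c + z c < μ) →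
  ∃ π ε : ℕ → ℤ, Pri R ν (fun c y => if c < K then n1 c y else if y < J then 0 else
    pat μ μ (i (c - K)) (z (c - K)) (y - J)) π ε (K + n)

/-- X7 (exact filling of rows). `J = R - μ`. X1 on the rows `< J`: `κ, x`, `SS = ℓ`. `K = KK κ x J`.
(1) `P ≤ κ (J - M - 1)`: with `Q = J - 2M - 1 ≥ R - (3M+1)`, all conditions given in the rows `< Q` come from the
`KK κ x Q` started points, each at most `choose (ν+1) 2` (GoalC for the run extended at `Q`), so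
`∑_{c<P} ≤ ∑_{c < KK κ x Q}` and `P ≤ KK κ x Q` (`le_of_sum`); a moving point moves for at most `M` rows.
(2) `F_j = ∑_{c<K} nn c (J+j)` is `≤ ℓ (J-1) + M - o` with `M o ≥ ℓ (J-1) - M` (as in X2), so `F_j ≤ ℓ (J+j)`
(`ℓ (J+j) ≥ ℓ (J-1) - M`), and `F_j = 0` for `j ≥ μ-1` (X3, `old_drop`). So `∑_{c<K} choose = ∑_{y<J} ℓ + ∑_j F_j ≤
∑_{y<R} ℓ = ∑_{c<N} choose`, `K ≤ N`; `n = N - K`; `K ≥ P`, so `ν = μ` for `c ≥ K`.
(3) `g t = ℓ (R-1-t) - FF t`; `g μ = 0`; `2 ∑_{t<μ} g t = n μ (μ+1)`. X2: `aa (y+1) - aa y ≥ 22 + S =: C` for the rows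
of X3. `- Hop g w = Hop FF w - Hop b w` with `b t = ℓ (R-1-t)`, and `- Hop b w = ∑_{t=1}^{w-1} t (t+1) (2 b_t - b_{t+1} - b_{t-1})
≥ - S (w-1) w (w+1) / 3`. So `- 3 Hop g w ≥ (C - 4 - S) (w-1) w (w+1) = 18 (…)`. `g 0 = ℓ (R-1) > 0`, all `g t ≥ 0`,
so `n ≥ 1`, and `g 1 ≤ ℓ (R-2) ≤ ℓ (R-1) + 1`.
(4) X4, X5 (for `ek, ex` on `R` rows), X6. Rows `y < J`: `sum_eq_SS`; rows `J + j`: `F_j + g (μ-1-j) = ℓ (J+j)`. -/
def GoalX7 : Prop := ∀ (M μ S R P N : ℕ) (ν ℓ : ℕ → ℕ), 1 ≤ μ → μ ≤ M → (∀ c, 1 ≤ ν c) →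
  (∀ c, ν c ≤ M) → (∀ c, P ≤ c → ν c = μ) → 4 * M + 6 ≤ R → Step M R ℓ → Zone M S R ℓ →
  ∑ c ∈ range P, (ν c + 1).choose 2 ≤ ∑ y ∈ range (R - (3 * M + 1)), ℓ y →
  ∑ c ∈ range N, (ν c + 1).choose 2 = ∑ y ∈ range R, ℓ y →
  ∃ (n : ℕ → ℕ → ℕ) (π ε : ℕ → ℤ), Pri R ν n π ε N ∧ ∀ y < R, ℓ y ≤ ∑ c ∈ range N, n c y

/-- X8 (profile theorem). Adapt `Ah.near` and `Ah.profile_gen` (Helper43/Ah/Good.lean), there is no corner `E`
here. Rows are played from `R-1` (shortest) to `0`: `L y = ℓ (R-1-y)`. Drop the `k` with `mm k = 0`.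
Inj: take a subset with `D.card ≤ Σ < D.card + choose (M+1) 2` (`Ah.subtotal`), `k = Σ - D.card`, and add one
cell to each of the rows `0, …, k-1`. Ind: add new points of multiplicity `M` until
`D.card - choose (M+1) 2 < Σ ≤ D.card`, `k = D.card - Σ`, remove one cell from each of the rows `0, …, k-1`. In both
cases the new rows `L'` satisfy `Step M R L'` (rows with index `≤ choose (M+1) 2` are `≥ 2M+1` after the change:
third alternative; the others are unchanged) and `Zone M (S+1) R L'`. Exact total: `Ah.pigeon` gives `μ` with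
`Σ ≤ M * (μ-conditions)`; number the points (`Ah.enum`) with those of multiplicity `≠ μ` first (`P` of
them; after all points continue with `ν = μ`), `∑_{c<P} ≤ Σ - Σ/M ≤ ∑_{y < R-(3M+1)} L'` because
`M (3M+1) (ℓ 0 + 1) ≤ Σ`. X7, reversal of the rows (`Gm.PkF2.pri_rev` in Helper49/Gm/F2.lean), `GoalA` with `p = 0`, `s = 0`,
`Ah.inj_relabel`. In the exact case `Inj` of a square system gives `Ind`. -/
def GoalX8 : Prop := ∀ (M S R : ℕ) (ℓ : ℕ → ℕ) (D : Finset (ℕ × ℕ)), 1 ≤ M →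
  (∀ d, d ∈ D ↔ d.2 < R ∧ d.1 < ℓ d.2) → 4 * M + 6 ≤ R → (M + 1).choose 2 < R →
  (∀ y, y + 1 < R → ℓ (y + 1) ≤ ℓ y) → (∀ y, y + 1 < R → ℓ (y + 1) < ℓ y ∨ M ≤ ℓ (y + 1)) →
  (∀ y ≤ 2 * M, (26 + S) * M ^ 2 + 1 ≤ ℓ y) → (∀ y ≤ (M + 1).choose 2, 2 * M + 2 ≤ ℓ y) →
  (∀ y, y + 2 ≤ M → ℓ y + ℓ (y + 2) ≤ 2 * ℓ (y + 1) + S) →
  M * (3 * M + 1) * (ℓ 0 + 1) + (M + 1).choose 2 ≤ D.card → Good M D

/-- X9 (all systems of degree `≥ 28 m_1²`). X8 with `R = d + 1`, `ℓ y = d + 1 - y`, `S = 0`, then as in the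
proof of `CubicDegree` (Results/MP_d3128a_ag/CubicDegree.lean, `Ah.good_P2`). `m 0 = 0`: no points. -/
def GoalX9 : Prop := ∀ (s : ℕ) (m : ℕ → ℕ) (d : ℕ), Antitone m → (∀ i, s ≤ i → m i = 0) →
  28 * m 0 ^ 2 ≤ d → Concl s m d

/-- X10 (nine free points, cubic). `M = m 9 ≥ 2`, `n = d`, `a = tr m 9`, `w = m 8 ≥ M`, `κ = kap n a`; `cubic_finish`
(as in `Helper18.Tw.main_cubic`) for the region `DS` (all cells), swapped (`GoodFor.swap`), rows = the columns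
`x < κ` of length `h x = #{b : x < rr b}` (an initial segment, `rr_antitone`). X8 with `R = κ`, `S = 2`: `h x ≥ w ≥ M`;
`h x ≥ H` iff `x < rr (H-1)`; `rr j ≥ κ - 9 (j - w)` (`Gm.PkRS.rr_slow9`, `rr_wall`) at `j = 28 M²` and `j = 2M+1`;
`h x ≤ h (x+1) + 2` for `x + 1 < κ` (`rr_strict`: strictly decreasing from `w` on, one exception; `rr = κ` before `w`).
Card: `D.card ≥ w κ + (T-w)(T-w-1)/2`, `T = h 0 ≥ 28 M² + 1`; if `T - w ≤ 9 M²` then `w ≥ 19 M²` and `w κ` is enough,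
otherwise use both. -/
def GoalX10 : Prop := ∀ (s : ℕ) (m : ℕ → ℕ) (d : ℕ), Antitone m → (∀ i, s ≤ i → m i = 0) →
  m 0 + m 1 + m 2 ≤ d → 2 ≤ m 9 → ∑ i ∈ range 9, m i + 260 * m 9 ^ 2 ≤ 3 * d →
  m 0 + 57 * m 9 ^ 2 ≤ d → Concl s m d

/-- X11 (nine free points, pencil). `M = m 9 ≥ 2`, `κ = kap d m > 0`, `w = m 8`. `k ≥ 2` with `27 M² ≤ k κ` and
`4 M² ≤ w / k` : if `27 M² ≤ 2 κ` take `k = 2` (`w ≥ 8 M²`), otherwise `k = (27 M² - 1) / κ + 1`, `k κ < 41 M²`,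
`4 M² k κ ≤ 164 M⁴ ≤ κ w`. `Nod.hex`, `rk_hgt`, `mem_DR'`, `slab_finish` as in `Helper18.Tw.main_pen`; X8 with `S = 0`,
`ℓ = rk …`, `R` = number of `b` with `rk b > 0` (`≥ w / k`). On the wall (`b < w / k`) `ℓ = k κ`, beyond it is strictly
decreasing while positive. Card: `≥ (w / k) (k κ) ≥ 4 M² k κ`. -/
def GoalX11 : Prop := ∀ (s : ℕ) (m : ℕ → ℕ) (d : ℕ), Antitone m → (∀ i, s ≤ i → m i = 0) →
  m 0 + m 1 + m 2 ≤ d → 2 ≤ m 9 → ∑ i ∈ range 9, m i < 3 * d → 8 * m 9 ^ 2 ≤ m 8 →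
  164 * m 9 ^ 4 ≤ (3 * d - ∑ i ∈ range 9, m i) * m 8 → Concl s m d

end Pool.Agent.Helper43.Gx
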