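import Mathlib
import Pool.Agent.Helper43.Gx.Goals
import Pool.Agent.Helper43.Gm.D

set_option autoImplicit false

namespace Pool.Agent.Helper43.Gx.PkX1

open Finset Pool.Agent.Lead.Sh
open Pool.Agent.Helper43.Gm (st mv nn SS Run Pri)
open Pool.Agent.Helper43.Gm.PkD

variable {κ κ' x x' ν : ℕ → ℕ} {c y z M R : ℕ}

/-- the exact choice for the next row -/
theorem choiceX (hR : Run M (y + 1) ν κ x) (l1 : ℕ) (hd : SS κ x ν y ≤ l1 + 1)
    (hg : SS κ x ν y < l1 ∨ (SS κ x ν y ≤ l1 ∧ M ≤ SS κ x ν y) ∨ 2 * M + 1 ≤ SS κ x ν y) :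
    ∃ K X, κ y ≤ K ∧ X ≤ ν K ∧ (0 < x y → K = κ y → x y < X) ∧
      ∑ c ∈ range K, od κ x ν c (y + 1) + X = l1 := by
  rcases hg with hg | hg
  · obtain ⟨o, ho1, ho2⟩ := drop (κ := κ) (x := x) (y := y) hR.νM
    have hSS := SS_eq κ x ν y
    have hxle := hR.le y (by omega)
    have hν1 := hR.ν1 (κ y)
    set A := ∑ c ∈ range (κ y), od κ x ν c (y + 1) with hA
    set B := ∑ c ∈ range (κ y), od κ x ν c y with hB
    rcases Nat.eq_zero_or_pos (x y) with hx | hx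
    · obtain ⟨K, X, hK, hX, hs, hpos⟩ := fill hR.ν1 (l1 - A) (κ y)
      have hT := T_still hR hx hK
      rw [← hA] at hT
      exact ⟨K, X, hK, hX, by omega, by omega⟩
    · have hv : od κ x ν (κ y) (y + 1) ≤ ν (κ y) := od_le
      rcases Nat.lt_or_ge (A + ν (κ y)) l1 with h | h
      · obtain ⟨K, X, hK, hX, hs, hpos⟩ := fill hR.ν1 (l1 - (A + od κ x ν (κ y) (y + 1)))
          (κ y + 1)
        have hT := T_moved hR hK
        rw [← hA] at hT
        exact ⟨K, X, by omega, hX, by omega, by omega⟩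
      · exact ⟨κ y, l1 - A, le_rfl, by omega, by omega, by omega⟩
  · obtain ⟨K, X, h1, h2, h3, h4, h5, h6, h7, h8⟩ := choice hR (SS κ x ν y) l1 False le_rfl
      (by omega) (fun _ => rfl) hd (fun _ => hg)
    have := h8 (fun h => h)
    exact ⟨K, X, h1, h2, h3, by omega⟩

theorem game (ν ℓ : ℕ → ℕ) (h1 : ∀ c, 1 ≤ ν c) (hM : ∀ c, ν c ≤ M) :
    ∀ y, (∀ z, z + 1 < y + 1 → ℓ z ≤ ℓ (z + 1) + 1) →
    (∀ z, z + 1 < y + 1 → ℓ z < ℓ (z + 1) ∨ (ℓ z ≤ ℓ (z + 1) ∧ M ≤ ℓ z) ∨ 2 * M + 1 ≤ ℓ z) →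
    ∃ κ x : ℕ → ℕ, Run M (y + 1) ν κ x ∧ ∀ z ≤ y, SS κ x ν z = ℓ z := by
  intro y
  induction y with
  | zero =>
    intro _ _
    obtain ⟨K, X, hK, hX, hs, hpos⟩ := fill h1 (ℓ 0) 0
    have hSS : SS (fun _ => K) (fun _ => X) ν 0 = ℓ 0 := by
      rw [SS_eq, sum_congr rfl (fun c _ => od_zero), range_eq_Ico]
      exact hs
    refine ⟨fun _ => K, fun _ => X, ⟨h1, hM, fun _ _ => le_rfl, fun _ _ => hX,
      fun _ h => absurd h (by omega)⟩, ?_⟩
    intro z hz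
    rw [show z = 0 by omega, hSS]
  | succ y ih =>
    intro hd hg
    obtain ⟨κ, x, hR, hex⟩ := ih (fun z hz => hd z (by omega)) (fun z hz => hg z (by omega))
    have he := hex y le_rfl
    obtain ⟨K, X, hK, hX, hinc, hs⟩ := choiceX hR (ℓ (y + 1)) (by rw [he]; exact hd y (by omega))
      (by rw [he]; exact hg y (by omega))
    obtain ⟨κ', x', hR', e1, e2, e3, e4, e5, e6⟩ := extend hR hK hX hinc
    refine ⟨κ', x', hR', ?_⟩
    intro z hz
    rcases Nat.lt_or_ge y z with h | h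
    · rw [show z = y + 1 by omega, e6, hs]
    · rw [e5 z h]; exact hex z h

theorem goalX1 : GoalX1 := by
  intro M R ν ℓ hM1 h1 hM hS
  rcases Nat.eq_zero_or_pos R with hR | hR
  · subst hR
    exact ⟨fun _ => 0, fun _ => 0, ⟨h1, hM, fun _ h => absurd h (by omega),
      fun _ h => absurd h (by omega), fun _ h => absurd h (by omega)⟩,
      fun _ h => absurd h (by omega)⟩
  · obtain ⟨y, rfl⟩ : ∃ y, R = y + 1 := ⟨R - 1, by omega⟩
    obtain ⟨κ, x, hR', hex⟩ := game ν ℓ h1 hM y hS.1 hS.2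
    exact ⟨κ, x, hR', fun z hz => hex z (by omega)⟩

end Pool.Agent.Helper43.Gx.PkX1
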