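import Mathlib
import Pool.Agent.Helper43.Gx.X1
import Pool.Agent.Helper24.Gx.X2
import Pool.Agent.Helper67.Gx.X3a
import Pool.Agent.Helper64.Gx.X3
import Pool.Agent.Helper93.Gx.X4
import Pool.Agent.Helper46.Gx.X5
import Pool.Agent.Helper62.Gx.X6
import Pool.Agent.Helper75.Gx.X7
import Pool.Agent.Helper58.Gx.X8
import Pool.Agent.Helper56.Gx.X9
import Pool.Agent.Helper43.Gm.Main

/-!
Assembly: all plane systems of degree at least `28 * m_1 ^ 2`.
-/

set_option autoImplicit false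

namespace Pool.Agent.Helper43.Gx

theorem goalX3 : GoalX3 := PkX3.goalX3 PkX3a.goalX3a

theorem goalX7 : GoalX7 :=
  PkX7.goalX7 Gm.PkC.goalC PkX1.goalX1 PkX2.goalX2 goalX3 PkX4.goalX4 PkX5.goalX5 PkX6.goalX6

theorem goalX8 : GoalX8 := PkX8.goalX8 Gm.PkA.goalA goalX7

theorem main_degree : GoalX9 := PkX9.goalX9 goalX8

end Pool.Agent.Helper43.Gx
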