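import Mathlib
import Pool.Agent.Helper18.Np.Med
import Pool.Agent.Helper43.Gx.Defs
import Pool.Agent.Helper18.CuspMain

/-!
Statements of the packets (MP_d3128a_ag, exact filling), second part: long strips with few rows.
-/

set_option autoImplicit false

namespace Pool.Agent.Helper43.Gx

open Finset Pool.Agent.Lead.Sh
open Pool.Agent.Helper43.Gm (st mv nn SS Run Pri)
open Pool.Agent.Helper43.Gm.PkE (KK ek ex)
open Helper18.Cusp (Concl GoodFor)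
open Helper18.Np (fm)

/-- the cells of the rows `0, …, R - 1` with `R * a + (R - 1) * b ≤ t` -/
def TD (R t : ℕ) : Finset (ℕ × ℕ) :=
  (range (t + 1) ×ˢ range R).filter (fun d => R * d.1 + (R - 1) * d.2 ≤ t)

/-- Y1 (= X3 with `M + 1 ≤ J` instead of `M + μ + 2 ≤ J`). Same proof: the rows used are `J - 1 - t` and
`J - 2 - t` with `t ≤ μ - 1`, so `J ≥ μ + 1` is enough there, and `J - M - 1` is a true subtraction. -/
def GoalY1 : Prop := ∀ (M μ J P C : ℕ) (ν κ x : ℕ → ℕ), Run M J ν κ x → 1 ≤ μ → μ ≤ M →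
  (∀ c, P ≤ c → ν c = μ) → M + 1 ≤ J → P ≤ κ (J - M - 1) → 4 ≤ C →
  (∀ y, J ≤ y + μ + 1 → y + 1 < J → aa κ x y + C ≤ aa κ x (y + 1)) →
  (∀ w, 2 ≤ w → w ≤ μ →
    ((C : ℤ) - 4) * ((w - 1) * w * (w + 1)) ≤ 3 * Hop (FF κ x ν μ J) w) ∧
  FF κ x ν μ J 0 = 0

/-- Y2 (= X7 with only `2 M + 1 ≤ R`, and a second way to say that the first `P` points are used early).
Same proof with Y1 instead of X3; `J = R - μ ≥ M + 1`. (1) if `∑_{c<P} ν c < ℓ 0` then `P ≤ κ 0`: otherwise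
`ℓ 0 = SS 0 = ∑_{c<κ 0} ν c + x 0 ≤ ∑_{c ≤ κ 0} ν c ≤ ∑_{c<P} ν c`; and `κ 0 ≤ κ (J-M-1)`. In the other case, if
`R ≤ 3 M + 1` then `P = 0`, otherwise as in X7. -/
def GoalY2 : Prop := ∀ (M μ S R P N : ℕ) (ν ℓ : ℕ → ℕ), 1 ≤ μ → μ ≤ M → (∀ c, 1 ≤ ν c) →
  (∀ c, ν c ≤ M) → (∀ c, P ≤ c → ν c = μ) → 2 * M + 1 ≤ R → Step M R ℓ → Zone M S R ℓ →
  (∑ c ∈ range P, ν c < ℓ 0 ∨
    ∑ c ∈ range P, (ν c + 1).choose 2 ≤ ∑ y ∈ range (R - (3 * M + 1)), ℓ y) →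
  ∑ c ∈ range N, (ν c + 1).choose 2 = ∑ y ∈ range R, ℓ y →
  ∃ (n : ℕ → ℕ → ℕ) (π ε : ℕ → ℤ), Pri R ν n π ε N ∧ ∀ y < R, ℓ y ≤ ∑ c ∈ range N, n c y

/-- Y3 (points `K` of arbitrary multiplicity which give `mm k - y` to the row `y`, and small points).
Number the points: first `O`, then `A` (`Ah.enum`), `N = O.card + A.card`, then the points of `K`; for `c ≥ N`
use `ν c = μ` in Y2, and `ν' c = mm k` in the end. Y2 (`P = O.card`; note `2 M + 1 ≤ R`) gives `n, π, ε` on `c < N`. For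
the point `c = N + j` of `K` put `n c y = mm k - y`, `ε c = E` larger than all `π y' - π y`: `Pri` holds with
`U = range y` (`U.card + n c y = mm k` if `n c y > 0`; the rows `y' > y` are worse because of `E`). Then `Gm.GoalA` with
`p = 0`, row lengths `ℓ y + fm mm K y`, and `Ah.inj_relabel`. -/
def GoalY3 : Prop := ∀ (M μ S R : ℕ) (ℓ s mm : ℕ → ℕ) (K O A : Finset ℕ) (D : Finset (ℕ × ℕ)),
  1 ≤ μ → μ ≤ M → 2 * M + 1 ≤ R →
  (∀ d ∈ D, d.2 < R ∧ s d.2 ≤ d.1 ∧ d.1 < s d.2 + (ℓ d.2 + fm mm K d.2)) →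
  Disjoint K (O ∪ A) → Disjoint O A → (∀ k ∈ O, 1 ≤ mm k ∧ mm k ≤ M) → (∀ k ∈ A, mm k = μ) →
  Step M R ℓ → Zone M S R ℓ →
  (∑ k ∈ O, mm k < ℓ 0 ∨
    ∑ k ∈ O, (mm k + 1).choose 2 ≤ ∑ y ∈ range (R - (3 * M + 1)), ℓ y) →
  ∑ k ∈ O ∪ A, (mm k + 1).choose 2 = ∑ y ∈ range R, ℓ y →
  Inj D (rows mm (K ∪ (O ∪ A)))

/-- Y4 (long strip, exact total). `L y = #{a : R a + (R-1) y ≤ t} = (t + y) / R - y + 1` (when `(R-1) y ≤ t`). A
value `v ≥ (R-1)²` is `R a + (R-1) b` for exactly one cell `b < R` (`b = -v mod R`), so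
`(TD R t).card = (TD R t').card + (t - t')` for `(R-1)² ≤ t' ≤ t`; also `(TD R t).card ≤ t + 1`. Call a class `i ≠ μ`,
`i ≤ M`, wide if its total `T = N_i * choose (i+1) 2` is `≥ 28 i² R`. Induction on the number of wide classes.
STEP: `i` wide, `t' = t - T` (`t + 1 ≥ (TD R t).card ≥ T + 6 R²`, so `t' ≥ (R-1)²`); induction hypothesis for `t'` and `s`
without the class `i`; the strip `TD R t \ TD R t'` has rows with `f b` cells, `f b` = number of multiples of `R` in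
`(t'+b, t+b]`, so `f b ∈ {T/R, T/R + 1}`, `f b ≥ 28 i² - 1 ≥ 27 i²`, `∑ f = T`: Y3 with `M = μ = i`, `S = 2`, `K = O = ∅`; glue
with `Inj.glue'`, weight `(R, R-1)`.
BASE: no wide class. `ℓ y = L y - fm mm K y` (true subtraction, see below), `D = TD R t`, `s = 0`, `S = 1`,
`A` = class `μ`, `O` the rest. As integers `∑ (L y - fm y) = ∑_s ≥ R (393 M³ + 6 R)`, so some `L y' - fm y' ≥ 393 M³ + 6 R`
and any two differ by at most `4 R + 1` (`L` decreases by at most `R`, `fm` by at most `4 R`, both are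
nonincreasing): all `ℓ y ≥ 393 M³`. `L y - L (y+1) ∈ {0, 1}`, `0` at most once, `fm` nonincreasing and convex: `Step`, and
second differences `≤ 1`. Points `O`: if `R ≥ 6 M + 2`: `∑_O choose ≤ ∑_{i≤M} 28 i² R ≤ 28 M³ R ≤ (R/2) * 393 M³`; if
`R ≤ 6 M + 1`: `N_i (i+1) < 56 i R`, so `∑_O mm k < 28 M (M+1) R ≤ 56 M² (6 M + 1) ≤ 392 M³ < ℓ 0` (or `O = ∅`). -/
def GoalY4 : Prop := ∀ (M μ R t : ℕ) (K s : Finset ℕ) (mm : ℕ → ℕ), 1 ≤ μ → μ ≤ M →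
  2 * M + 1 ≤ R → Disjoint K s → fm mm K 0 ≤ 4 * R → (∀ k ∈ s, 1 ≤ mm k ∧ mm k ≤ M) →
  ∑ y ∈ range R, fm mm K y + ∑ k ∈ s, (mm k + 1).choose 2 = (TD R t).card →
  R * (393 * M ^ 3 + 6 * R) ≤ ∑ k ∈ s.filter (fun k => mm k = μ), (mm k + 1).choose 2 →
  Inj (TD R t) (rows mm (K ∪ s))

/-- Y5 (long strip). `R = δ + 1`, `TD R (R * d) = rowsD R (fun y => d + 1 - y)` (`R a + (R-1) b ≤ R d` iff
`a + b ≤ d`, because `b < R`). Drop the `k` with `mm k = 0`. Inj: take a subset `s` of `s0` with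
`card ≤ ∑_{K ∪ s} < card + choose (M+1) 2` (`Ah.subtotal`; `∑_K ≤ card`), `t = R d + (∑_{K ∪ s} - card)`, Y4, and
`TD R (R d) ⊆ TD R t`. Ind: add new points of multiplicity `1` until the total is exactly `card`, Y4 with
`t = R d`, a square injective system is independent. In both cases the total of the small points is
`≥ R (d + 1 - δ) - 4 R (δ + 1) ≥ M R (393 M³ + 6 R)`, so some class `μ ∈ {1, …, M}` has at least the `M`-th part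
(`Ah.pigeon`). `∑_{y<R} fm mm K y = ∑_K choose` (`Helper18.Np.sum_fm`). -/
def GoalY5 : Prop := ∀ (M δ d : ℕ) (K s0 : Finset ℕ) (mm : ℕ → ℕ), 1 ≤ M → 2 * M ≤ δ →
  Disjoint K s0 → (∀ k ∈ K, mm k ≤ δ) → fm mm K 0 ≤ 4 * δ → (∀ k ∈ s0, mm k ≤ M) →
  393 * M ^ 4 + 11 * M * (δ + 1) + M ^ 2 ≤ d →
  GoodFor (Pool.Agent.Helper43.Ah.rowsD (δ + 1) (fun y => d + 1 - y)) mm (K ∪ s0)

/-- Y6 (one dominating point). `Helper18.Np.long_finish`, `fm_long`, Y5 with `M = m 9`, `δ = d - m 0`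
(`δ ≥ m 1 + m 2 ≥ 2 M`, `δ + 1 ≤ 57 M²`), `K = Ico 1 9`, `s0 = Ico 9 s`; `11 * 57 M³ + M² ≤ 315 M⁴` for `M ≥ 2`. -/
def GoalY6 : Prop := ∀ (s : ℕ) (m : ℕ → ℕ) (d : ℕ), Antitone m → (∀ i, s ≤ i → m i = 0) →
  m 0 + m 1 + m 2 ≤ d → 2 ≤ m 9 → d < m 0 + 57 * m 9 ^ 2 → 710 * m 9 ^ 4 ≤ d → Concl s m d

/-- Y7 (final). `κ = 3 d - ∑_{i<9} m i` (`≥ 0` for reduced systems). `κ = 0`: `Helper18` theorem used in
`main_poly` (`main_zero`). `m 9 ≤ 1`: as in `main_poly` (`red_tr`, `cubic_finish`, `goodFor_simple`). `m 9 ≥ 2`,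
`κ ≥ 260 M²`: X10 if `m 0 + 57 M² ≤ d`, otherwise Y6. `0 < κ < 260 M²`: `κ` is the sum of `d - m 0 - m 1 - m 2`,
`d - m 3 - m 4 - m 5`, `d - m 6 - m 7 - m 8 ≥ 0` and `m 6, m 7 ≤ m 2 ≤ d / 3`, so `3 m 8 + 780 M² ≥ d`; as `d ≥ 1560 M²`,
`6 m 8 ≥ d`, `m 8 ≥ 260 M² ≥ 8 M²` and `6 κ m 8 ≥ κ d ≥ 984 M⁴`: X11. -/
def GoalY7 : Prop := ∀ (s : ℕ) (m : ℕ → ℕ) (d : ℕ), Antitone m → (∀ i, s ≤ i → m i = 0) →
  m 0 + m 1 + m 2 ≤ d → 1560 * m 9 ^ 2 ≤ d → (m 0 + 57 * m 9 ^ 2 ≤ d ∨ 710 * m 9 ^ 4 ≤ d) →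
  (∑ i ∈ range 9, m i = 3 * d ∨ 984 * m 9 ^ 4 + (∑ i ∈ range 9, m i) * d ≤ 3 * d * d) →
  Concl s m d

end Pool.Agent.Helper43.Gx
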