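import Mathlib
import Pool.Agent.Helper43.Gx.Main
import Pool.Agent.Helper13.Gx.X10
import Pool.Agent.Helper47.Gx.X11
import Pool.Agent.Helper70.Gx.Y1
import Pool.Agent.Helper75.Gx.Y2
import Pool.Agent.Helper24.Gx.Y3
import Pool.Agent.Helper39.Gx.Y4
import Pool.Agent.Helper64.Gx.Y5
import Pool.Agent.Helper46.Gx.Y6
import Pool.Agent.Helper46.Gx.Y7

/-!
Assembly: reduced systems of degree at least `1560 * m_10 ^ 4` (and finer).
-/

set_option autoImplicit false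

namespace Pool.Agent.Helper43.Gx

theorem goalY2 : GoalY2 := PkY2.goalY2 Gm.PkC.goalC PkX1.goalX1 PkX2.goalX2
  (PkY1.goalY1 PkX3a.goalX3a) PkX4.goalX4 PkX5.goalX5 PkX6.goalX6

theorem main_nine : GoalY7 :=
  PkY7.goalY7 (PkX10.goalX10 goalX8) (PkX11.goalX11 goalX8)
    (PkY6.goalY6 (PkY5.goalY5 (PkY4.goalY4 (PkY3.goalY3 Gm.PkA.goalA goalY2))))

end Pool.Agent.Helper43.Gx
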